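import Mathlib

set_option autoImplicit false

/-!
# MP_10ddbf_co: prime moduli, the counting lemma
-/

namespace Pool.Agent.WLR3

open Finset

/-- distance to the nearest integer -/
noncomputable def nd (x : ℝ) : ℝ := |x - (round x : ℝ)|

theorem nd_le (x : ℝ) (k : ℤ) : nd x ≤ |x - k| := round_le x k

theorem nd_lip (x y : ℝ) : nd x ≤ nd y + |x - y| := by
  have h1 := nd_le x (round y)
  have h2 : |x - (round y : ℝ)| ≤ |x - y| + |y - (round y : ℝ)| := by
    have := abs_add_le (x - y) (y - (round y : ℝ))
    rwa [sub_add_sub_cancel] at this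
  unfold nd at *
  linarith

theorem nd_add_int (x : ℝ) (k : ℤ) : nd (x + k) = nd x := by
  unfold nd
  rw [round_add_intCast]
  push_cast
  congr 1
  ring

theorem nd_neg (x : ℝ) : nd (-x) = nd x := by
  have key : ∀ y : ℝ, nd (-y) ≤ nd y := by
    intro y
    have h1 := nd_le (-y) (-(round y))
    have h2 : |(-y) - ((-(round y) : ℤ) : ℝ)| = nd y := by
      unfold nd
      push_cast
      rw [← abs_neg]
      congr 1
      ring
    linarith
  refine le_antisymm (key x) ?_
  have := key (-x)
  rwa [neg_neg] at this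

theorem nd_cont : Continuous nd := by
  rw [Metric.continuous_iff]
  intro b ε hε
  refine ⟨ε, hε, fun a ha => ?_⟩
  rw [Real.dist_eq] at ha ⊢
  have h1 := nd_lip a b
  have h2 := nd_lip b a
  rw [abs_sub_comm b a] at h2
  rw [abs_lt]
  constructor <;> linarith

theorem lt_iff_exists {x d : ℝ} (h : nd x < d) : ∃ k : ℤ, |x - k| < d := ⟨round x, h⟩

section count

variable {ι : Type*} [DecidableEq ι] {q : ℕ} [Fact q.Prime]

/-- first blocked time -/
noncomputable def A0 (r : ι → ZMod q) (g : ι → ℤ) (i : ι) : ZMod q := (0 - (g i : ZMod q)) * (r i)⁻¹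

/-- second blocked time -/
noncomputable def A1 (r : ι → ZMod q) (g : ι → ℤ) (f : ι → ℝ) (i : ι) : ZMod q :=
  ((if 0 < f i then -1 else 1) - (g i : ZMod q)) * (r i)⁻¹

open Classical in
/-- the weights -/
noncomputable def W (I : Finset ι) (r : ι → ZMod q) (g : ι → ℤ) (f : ι → ℝ) (i : ι) (a : ZMod q) : ℝ :=
  if |f i| ≤ 1 / 3 then (if a = A0 r g i then 1 else 0)
  else if ∃ i' ∈ I, |f i'| ≤ 1 / 3 ∧ A0 r g i' = A0 r g i then (if a = A1 r g f i then 1 else 0)
  else if ∃ i' ∈ I, |f i'| ≤ 1 / 3 ∧ A0 r g i' = A1 r g f i then (if a = A0 r g i then 1 else 0)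
  else (if a = A0 r g i then 1 / 2 else 0) + (if a = A1 r g f i then 1 / 2 else 0)

theorem W_nonneg (I : Finset ι) (r : ι → ZMod q) (g : ι → ℤ) (f : ι → ℝ) (i : ι) (a : ZMod q) :
    0 ≤ W I r g f i a := by
  unfold W
  split_ifs <;> norm_num

theorem W_sum (I : Finset ι) (r : ι → ZMod q) (g : ι → ℤ) (f : ι → ℝ) (i : ι) :
    ∑ a, W I r g f i a = 1 := by
  classical
  unfold W
  split_ifs
  · rw [Finset.sum_ite_eq' univ (A0 r g i) (fun _ => (1 : ℝ))]
    simp
  · rw [Finset.sum_ite_eq' univ (A1 r g f i) (fun _ => (1 : ℝ))]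
    simp
  · rw [Finset.sum_ite_eq' univ (A0 r g i) (fun _ => (1 : ℝ))]
    simp
  · rw [Finset.sum_add_distrib, Finset.sum_ite_eq' univ (A0 r g i) (fun _ => (1 / 2 : ℝ)),
      Finset.sum_ite_eq' univ (A1 r g f i) (fun _ => (1 / 2 : ℝ))]
    simp
    norm_num

/-- mates have the same cell -/
theorem cell (r : ι → ZMod q) (g : ι → ℤ) (f : ι → ℝ) (i i' : ι) (hr : r i' = r i)
    (hi : 1 / 3 < |f i|) (hi2 : |f i| ≤ 1 / 2) (hi'2 : |f i'| ≤ 1 / 2) (Δ : ℤ)
    (hΔ : ((g i : ZMod q) - g i') = Δ) (hm : |(Δ : ℝ) + f i - f i'| ≤ 2 / 3) :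
    (|f i'| ≤ 1 / 3 → A0 r g i' = A0 r g i ∨ A0 r g i' = A1 r g f i) ∧
    (1 / 3 < |f i'| → (A0 r g i' = A0 r g i ∧ A1 r g f i' = A1 r g f i) ∨
      (A0 r g i' = A1 r g f i ∧ A1 r g f i' = A0 r g i)) := by
  have hg : (g i' : ZMod q) = g i - Δ := by
    rw [← hΔ]
    ring
  obtain ⟨m1, m2⟩ := abs_le.1 hm
  obtain ⟨a1, a2⟩ := abs_le.1 hi2
  obtain ⟨b1, b2⟩ := abs_le.1 hi'2
  have hint : ∀ k : ℤ, (k : ℝ) - 1 < Δ → (Δ : ℝ) < k + 1 → Δ = k := by
    intro k h1 h2
    have h3 : k - 1 < Δ := by
      have : ((k - 1 : ℤ) : ℝ) < Δ := by push_cast; linarith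
      exact_mod_cast this
    have h4 : Δ < k + 1 := by
      have : (Δ : ℝ) < ((k + 1 : ℤ) : ℝ) := by push_cast; linarith
      exact_mod_cast this
    omega
  constructor
  · intro h
    obtain ⟨c1, c2⟩ := abs_le.1 h
    by_cases hp : 0 < f i
    · rw [abs_of_pos hp] at hi
      -- Δ ∈ {-1, 0}
      by_cases h0 : (Δ : ℝ) < -(1 / 2)
      · have h1 : Δ = -1 := hint (-1) (by push_cast; linarith) (by push_cast; linarith)
        right
        unfold A0 A1
        rw [if_pos hp, hr, hg, h1]
        push_cast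
        ring
      · have h1 : Δ = 0 := by
          refine hint 0 (by push_cast; linarith) (by push_cast; linarith)
        left
        unfold A0
        rw [hr, hg, h1]
        push_cast
        ring
    · push Not at hp
      rw [abs_of_nonpos hp] at hi
      by_cases h0 : (1 / 2 : ℝ) < Δ
      · have h1 : Δ = 1 := hint 1 (by push_cast; linarith) (by push_cast; linarith)
        right
        unfold A0 A1
        rw [if_neg (not_lt.2 hp), hr, hg, h1]
        push_cast
        ring
      · have h1 : Δ = 0 := by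
          refine hint 0 (by push_cast; linarith) (by push_cast; linarith)
        left
        unfold A0
        rw [hr, hg, h1]
        push_cast
        ring
  · intro h
    by_cases hp : 0 < f i
    · rw [abs_of_pos hp] at hi
      by_cases hp' : 0 < f i'
      · rw [abs_of_pos hp'] at h
        have h1 : Δ = 0 := hint 0 (by push_cast; linarith) (by push_cast; linarith)
        left
        unfold A0 A1
        rw [if_pos hp, if_pos hp', hr, hg, h1]
        push_cast
        constructor <;> ring
      · push Not at hp'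
        rw [abs_of_nonpos hp'] at h
        have h1 : Δ = -1 := hint (-1) (by push_cast; linarith) (by push_cast; linarith)
        right
        unfold A0 A1
        rw [if_pos hp, if_neg (not_lt.2 hp'), hr, hg, h1]
        push_cast
        constructor <;> ring
    · push Not at hp
      rw [abs_of_nonpos hp] at hi
      by_cases hp' : 0 < f i'
      · rw [abs_of_pos hp'] at h
        have h1 : Δ = 1 := hint 1 (by push_cast; linarith) (by push_cast; linarith)
        right
        unfold A0 A1
        rw [if_neg (not_lt.2 hp), if_pos hp', hr, hg, h1]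
        push_cast
        constructor <;> ring
      · push Not at hp'
        rw [abs_of_nonpos hp'] at h
        have h1 : Δ = 0 := hint 0 (by push_cast; linarith) (by push_cast; linarith)
        left
        unfold A0 A1
        rw [if_neg (not_lt.2 hp), if_neg (not_lt.2 hp'), hr, hg, h1]
        push_cast
        constructor <;> ring

/-- The counting lemma. -/
theorem count (I : Finset ι) (r : ι → ZMod q) (g : ι → ℤ) (f : ι → ℝ)
    (hr : ∀ i ∈ I, r i ≠ 0) (hf : ∀ i ∈ I, |f i| ≤ 1 / 2)
    (hmate : ∀ i ∈ I, ∃ i' ∈ I, i' ≠ i ∧ r i' = r i ∧ ∃ Δ : ℤ,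
      ((g i : ZMod q) - g i') = Δ ∧ |(Δ : ℝ) + f i - f i'| ≤ 2 / 3)
    (hbl : ∀ a : ZMod q, a ≠ 0 → ∃ i ∈ I, ∃ u : ℤ, a * r i + g i = u ∧ |(u : ℝ) + f i| < 2 / 3) :
    q - 1 ≤ I.card := by
  classical
  -- weak blocking
  have hbl' : ∀ a : ZMod q, a ≠ 0 → ∃ i ∈ I, a = A0 r g i ∨ (1 / 3 < |f i| ∧ a = A1 r g f i) := by
    intro a ha
    obtain ⟨i, hi, u, hu, hab⟩ := hbl a ha
    refine ⟨i, hi, ?_⟩
    obtain ⟨a1, a2⟩ := abs_le.1 (hf i hi)
    obtain ⟨b1, b2⟩ := abs_lt.1 hab
    have hri := hr i hi
    have hau : a = ((u : ZMod q) - g i) * (r i)⁻¹ := by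
      rw [← hu]
      field_simp
      ring
    have hu1 : u < 2 := by
      have : (u : ℝ) < 2 := by linarith
      exact_mod_cast this
    have hu2 : -2 < u := by
      have : (-2 : ℝ) < u := by linarith
      exact_mod_cast this
    have hcases : u = -1 ∨ u = 0 ∨ u = 1 := by omega
    rcases hcases with h | h | h
    · right
      rw [h] at b1 b2 hau
      push_cast at b1 b2
      have hp : 0 < f i := by linarith
      refine ⟨by rw [abs_of_pos hp]; linarith, ?_⟩
      unfold A1
      rw [if_pos hp, hau]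
      push_cast
      ring
    · left
      rw [hau, h]
      unfold A0
      push_cast
      ring
    · right
      rw [h] at b1 b2 hau
      push_cast at b1 b2
      have hp : f i < 0 := by linarith
      refine ⟨by rw [abs_of_neg hp]; linarith, ?_⟩
      unfold A1
      rw [if_neg (not_lt.2 hp.le), hau]
      push_cast
      ring
  -- coverage
  have hcov : ∀ a : ZMod q, a ≠ 0 → 1 ≤ ∑ i ∈ I, W I r g f i a := by
    intro a ha
    have single_le : ∀ i ∈ I, W I r g f i a ≤ ∑ i ∈ I, W I r g f i a := fun i hi =>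
      Finset.single_le_sum (f := fun i => W I r g f i a) (fun k _ => W_nonneg I r g f k a) hi
    by_cases hs : ∃ i ∈ I, |f i| ≤ 1 / 3 ∧ A0 r g i = a
    · obtain ⟨i, hi, h1, h2⟩ := hs
      have h3 : W I r g f i a = 1 := by
        unfold W
        rw [if_pos h1, if_pos h2.symm]
      rw [← h3]
      exact single_le i hi
    · push Not at hs
      have hhalf : ∀ i ∈ I, 1 / 3 < |f i| → (a = A0 r g i ∨ a = A1 r g f i) →
          (1 / 2 : ℝ) ≤ W I r g f i a ∧
          ((∃ i' ∈ I, |f i'| ≤ 1 / 3 ∧ (A0 r g i' = A0 r g i ∨ A0 r g i' = A1 r g f i)) →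
            1 ≤ W I r g f i a) := by
        intro i hi h1 h2
        by_cases e0 : ∃ i' ∈ I, |f i'| ≤ 1 / 3 ∧ A0 r g i' = A0 r g i
        · obtain ⟨i', hi', h3, h4⟩ := e0
          have h5 : a = A1 r g f i := by
            rcases h2 with h | h
            · exact absurd (h4.trans h.symm) (hs i' hi' h3)
            · exact h
          have h6 : W I r g f i a = 1 := by
            unfold W
            rw [if_neg (not_le.2 h1), if_pos ⟨i', hi', h3, h4⟩, if_pos h5]
          rw [h6]
          exact ⟨by norm_num, fun _ => le_refl _⟩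
        · by_cases e1 : ∃ i' ∈ I, |f i'| ≤ 1 / 3 ∧ A0 r g i' = A1 r g f i
          · obtain ⟨i', hi', h3, h4⟩ := e1
            have h5 : a = A0 r g i := by
              rcases h2 with h | h
              · exact h
              · exact absurd (h4.trans h.symm) (hs i' hi' h3)
            have h6 : W I r g f i a = 1 := by
              unfold W
              rw [if_neg (not_le.2 h1), if_neg e0, if_pos ⟨i', hi', h3, h4⟩, if_pos h5]
            rw [h6]
            exact ⟨by norm_num, fun _ => le_refl _⟩
          · constructor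
            · unfold W
              rw [if_neg (not_le.2 h1), if_neg e0, if_neg e1]
              rcases h2 with h | h
              · rw [if_pos h]
                split_ifs <;> norm_num
              · rw [if_pos h]
                split_ifs <;> norm_num
            · rintro ⟨i', hi', h3, h4 | h4⟩
              · exact absurd ⟨i', hi', h3, h4⟩ e0
              · exact absurd ⟨i', hi', h3, h4⟩ e1
      obtain ⟨i, hi, hia⟩ := hbl' a ha
      have hdouble : 1 / 3 < |f i| := by
        by_contra hcon
        push Not at hcon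
        rcases hia with h | h
        · exact hs i hi hcon h.symm
        · linarith [h.1]
      have hia' : a = A0 r g i ∨ a = A1 r g f i := by
        rcases hia with h | h
        · exact Or.inl h
        · exact Or.inr h.2
      obtain ⟨h1, h2⟩ := hhalf i hi hdouble hia'
      obtain ⟨i', hi', hne, hri, Δ, hΔ, hm⟩ := hmate i hi
      obtain ⟨c1, c2⟩ := cell r g f i i' hri hdouble (hf i hi) (hf i' hi') Δ hΔ hm
      by_cases hsi' : |f i'| ≤ 1 / 3
      · have h3 := h2 ⟨i', hi', hsi', c1 hsi'⟩
        exact le_trans h3 (single_le i hi)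
      · push Not at hsi'
        have h4 : a = A0 r g i' ∨ a = A1 r g f i' := by
          rcases c2 hsi' with ⟨e1, e2⟩ | ⟨e1, e2⟩
          · rw [e1, e2]
            exact hia'
          · rw [e1, e2]
            exact hia'.symm
        obtain ⟨h5, -⟩ := hhalf i' hi' hsi' h4
        have h6 : W I r g f i a + W I r g f i' a ≤ ∑ i ∈ I, W I r g f i a := by
          rw [← Finset.sum_pair (f := fun i => W I r g f i a) (Ne.symm hne)]
          refine Finset.sum_le_sum_of_subset_of_nonneg ?_ fun k _ _ => W_nonneg I r g f k a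
          intro k hk
          rcases Finset.mem_insert.1 hk with rfl | hk
          · exact hi
          · rw [Finset.mem_singleton.1 hk]
            exact hi'
        linarith
  have h1 : ((univ.erase (0 : ZMod q)).card : ℝ) ≤ I.card := by
    calc ((univ.erase (0 : ZMod q)).card : ℝ) = ∑ a ∈ univ.erase (0 : ZMod q), (1 : ℝ) := by simp
      _ ≤ ∑ a ∈ univ.erase (0 : ZMod q), ∑ i ∈ I, W I r g f i a :=
          Finset.sum_le_sum fun a ha => hcov a (Finset.ne_of_mem_erase ha)
      _ ≤ ∑ a, ∑ i ∈ I, W I r g f i a :=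
          Finset.sum_le_sum_of_subset_of_nonneg (Finset.erase_subset _ _) fun a _ _ =>
            Finset.sum_nonneg fun i _ => W_nonneg I r g f i a
      _ = ∑ i ∈ I, ∑ a, W I r g f i a := Finset.sum_comm
      _ = ∑ i ∈ I, (1 : ℝ) := Finset.sum_congr rfl fun i _ => W_sum I r g f i
      _ = I.card := by simp
  rw [Finset.card_erase_of_mem (Finset.mem_univ _), Finset.card_univ, ZMod.card] at h1
  exact_mod_cast h1

end count

end Pool.Agent.WLR3
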