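import Pool.Agent.WLR3.Count

set_option autoImplicit false

/-!
# MP_10ddbf_co: prime moduli, the theorem
-/

namespace Pool.Agent.WLR3

open Finset

/-- the property for a finite set of integer speeds -/
def Lon (S : Finset ℤ) (d : ℝ) : Prop :=
  ∃ t : ℝ, ∃ j ∈ S, ∀ i ∈ S, i ≠ j → d ≤ nd (t * ((i : ℝ) - j))

theorem nd_frac {q : ℕ} (hq : 0 < q) (m : ℤ) (h : ¬ (q : ℤ) ∣ m) : 1 / (q : ℝ) ≤ nd (m / q) := by
  unfold nd
  set k := round ((m : ℝ) / q) with hk
  have hq' : (0 : ℝ) < q := by exact_mod_cast hq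
  have h1 : m - q * k ≠ 0 := by
    intro h0
    exact h ⟨k, by linarith⟩
  have h2 : (1 : ℝ) ≤ |((m - q * k : ℤ) : ℝ)| := by
    have : (1 : ℤ) ≤ |m - q * k| := Int.one_le_abs h1
    exact_mod_cast this
  have h3 : (m : ℝ) / q - k = ((m - q * k : ℤ) : ℝ) / q := by
    push_cast
    field_simp
  rw [h3, abs_div, abs_of_pos hq']
  exact div_le_div_of_nonneg_right h2 hq'.le

/-- the sum of all distances -/
def mu (S : Finset ℤ) : ℕ := ∑ v ∈ S, ∑ w ∈ S, (v - w).natAbs

theorem mu_lt {C S : Finset ℤ} (h : C ⊆ S) (hne : C.Nonempty) {u : ℤ} (hu : u ∈ S) (hu' : u ∉ C) :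
    mu C < mu S := by
  obtain ⟨c, hc⟩ := hne
  unfold mu
  have h1 : ∑ v ∈ C, ∑ w ∈ C, (v - w).natAbs ≤ ∑ v ∈ C, ∑ w ∈ S, (v - w).natAbs :=
    Finset.sum_le_sum fun v _ => Finset.sum_le_sum_of_subset h
  have h2 : ∑ v ∈ C, ∑ w ∈ S, (v - w).natAbs < ∑ v ∈ S, ∑ w ∈ S, (v - w).natAbs := by
    refine Finset.sum_lt_sum_of_subset h hu hu' ?_ fun _ _ _ => Nat.zero_le _
    refine lt_of_lt_of_le ?_ (Finset.single_le_sum (f := fun w => (u - w).natAbs)
      (fun _ _ => Nat.zero_le _) (h hc))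
    have : u ≠ c := fun e => hu' (e ▸ hc)
    show 0 < (u - c).natAbs
    omega
  omega

section step

variable {q : ℕ} [hqp : Fact q.Prime]

/-- the case in which every speed has a classmate and there are at least two classes -/
theorem key (S : Finset ℤ) (d : ℝ) (hd : 0 < d) (hdq : 3 * q * d ≤ 2) (hcard : S.card ≤ q)
    (hmate : ∀ i ∈ S, ∃ i' ∈ S, i' ≠ i ∧ (q : ℤ) ∣ i' - i) (v0 : ℤ) (hv0 : v0 ∈ S)
    (hC : Lon (S.filter fun i => (q : ℤ) ∣ i - v0) d) : Lon S d := by
  classical
  by_contra hcon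
  unfold Lon at hcon
  push Not at hcon
  have hq0 : (0 : ℝ) < q := by exact_mod_cast hqp.out.pos
  -- the mates
  let mt : ℤ → Finset ℤ := fun j => S.filter fun i => i ≠ j ∧ (q : ℤ) ∣ i - j
  have hmt : ∀ j ∈ S, (mt j).Nonempty := by
    intro j hj
    obtain ⟨i, hi, h1, h2⟩ := hmate j hj
    exact ⟨i, Finset.mem_filter.2 ⟨hi, h1, h2⟩⟩
  let gg : ℤ → ℝ → ℝ := fun j η =>
    if h : (mt j).Nonempty then (mt j).inf' h fun i => nd (η * ((i : ℝ) - j)) else 0
  have hgg : ∀ (j : ℤ) (hj : j ∈ S) (η : ℝ),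
      gg j η = (mt j).inf' (hmt j hj) fun i => nd (η * ((i : ℝ) - j)) := by
    intro j hj η
    simp only [gg]
    rw [dif_pos (hmt j hj)]
  have hggc : ∀ j ∈ S, Continuous (gg j) := by
    intro j hj
    have : gg j = fun η => (mt j).inf' (hmt j hj) fun i => nd (η * ((i : ℝ) - j)) :=
      funext fun η => hgg j hj η
    rw [this]
    refine Continuous.finset_inf'_apply _ fun i _ => ?_
    exact nd_cont.comp (continuous_id.mul continuous_const)
  have hSne : S.Nonempty := ⟨v0, hv0⟩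
  let G : ℝ → ℝ := fun η => S.sup' hSne fun j => gg j η
  have hGc : Continuous G := Continuous.finset_sup'_apply hSne fun j hj => hggc j hj
  have hG0 : G 0 ≤ d := by
    refine Finset.sup'_le hSne _ fun j hj => ?_
    rw [hgg j hj]
    obtain ⟨i, hi⟩ := hmt j hj
    refine le_trans (Finset.inf'_le _ hi) ?_
    rw [zero_mul]
    unfold nd
    simp [hd.le]
  have hG1 : ∃ η, d ≤ G η := by
    obtain ⟨t, j, hj, hjt⟩ := hC
    obtain ⟨hjS, hjv⟩ := Finset.mem_filter.1 hj
    refine ⟨t, ?_⟩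
    refine le_trans ?_ (Finset.le_sup' (f := fun j => gg j t) hjS)
    rw [hgg j hjS]
    refine Finset.le_inf' _ _ fun i hi => ?_
    obtain ⟨hiS, hij, hdv⟩ := Finset.mem_filter.1 hi
    refine hjt i (Finset.mem_filter.2 ⟨hiS, ?_⟩) hij
    have : i - v0 = (i - j) + (j - v0) := by ring
    rw [this]
    exact dvd_add hdv hjv
  obtain ⟨η, hη⟩ := mem_range_of_exists_le_of_exists_ge hGc ⟨0, hG0⟩ hG1
  obtain ⟨j, hj, hjG⟩ := Finset.exists_mem_eq_sup' hSne fun j => gg j η
  have hj1 : ∀ i ∈ S, i ≠ j → (q : ℤ) ∣ i - j → d ≤ nd (η * ((i : ℝ) - j)) := by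
    intro i hi hij hdv
    have h1 : gg j η = d := by
      rw [← hη]
      exact hjG.symm
    rw [← h1, hgg j hj]
    exact Finset.inf'_le (f := fun i : ℤ => nd (η * ((i : ℝ) - j)))
      (Finset.mem_filter.2 ⟨hi, hij, hdv⟩)
  have hm1 : ∀ i ∈ S, ∃ i' ∈ S, i' ≠ i ∧ (q : ℤ) ∣ i' - i ∧ nd (η * ((i' : ℝ) - i)) ≤ d := by
    intro i hi
    have h1 : gg i η ≤ d := by
      rw [← hη]
      exact Finset.le_sup' (f := fun j => gg j η) hi
    rw [hgg i hi] at h1
    obtain ⟨i', hi', h2⟩ := Finset.exists_mem_eq_inf' (hmt i hi)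
      fun i' : ℤ => nd (η * ((i' : ℝ) - i))
    obtain ⟨h3, h4, h5⟩ := Finset.mem_filter.1 hi'
    exact ⟨i', h3, h4, h5, by rw [← h2]; exact h1⟩
  -- counting
  have hcount : q - 1 ≤ (S.filter fun i => ¬ (q : ℤ) ∣ i - j).card := by
    refine count (S.filter fun i => ¬ (q : ℤ) ∣ i - j) (fun i => ((i - j : ℤ) : ZMod q))
      (fun i => round (q * η * ((i : ℝ) - j)))
      (fun i => q * η * ((i : ℝ) - j) - round (q * η * ((i : ℝ) - j))) ?_ ?_ ?_ ?_
    · intro i hi h0
      exact (Finset.mem_filter.1 hi).2 ((ZMod.intCast_zmod_eq_zero_iff_dvd _ _).1 h0)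
    · intro i _
      exact abs_sub_round _
    · intro i hi
      obtain ⟨hiS, hiq⟩ := Finset.mem_filter.1 hi
      obtain ⟨i', hi', hne, hdv, hnd⟩ := hm1 i hiS
      have hi'q : ¬ (q : ℤ) ∣ i' - j := by
        intro h
        apply hiq
        have : i - j = (i' - j) - (i' - i) := by ring
        rw [this]
        exact dvd_sub h hdv
      refine ⟨i', Finset.mem_filter.2 ⟨hi', hi'q⟩, hne, ?_, ?_⟩
      · have h1 : ((i' - i : ℤ) : ZMod q) = 0 := (ZMod.intCast_zmod_eq_zero_iff_dvd _ _).2 hdv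
        have h2 : i' - j = (i' - i) + (i - j) := by ring
        show ((i' - j : ℤ) : ZMod q) = ((i - j : ℤ) : ZMod q)
        rw [h2, Int.cast_add, h1, zero_add]
      · -- the integer
        set m := round (η * ((i' : ℝ) - i)) with hm
        refine ⟨round (q * η * ((i : ℝ) - j)) - round (q * η * ((i' : ℝ) - j)) + q * m, ?_, ?_⟩
        · push_cast
          simp
        · have h1 : |η * ((i' : ℝ) - i) - m| ≤ d := hnd
          have h2 : (((round (q * η * ((i : ℝ) - j)) - round (q * η * ((i' : ℝ) - j)) + q * m : ℤ)) : ℝ)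
              + (q * η * ((i : ℝ) - j) - round (q * η * ((i : ℝ) - j))) -
              (q * η * ((i' : ℝ) - j) - round (q * η * ((i' : ℝ) - j))) =
              -(q * (η * ((i' : ℝ) - i) - m)) := by
            push_cast
            ring
          rw [h2, abs_neg, abs_mul, abs_of_pos hq0]
          nlinarith
    · intro a ha
      obtain ⟨i, hi, hij, hlt⟩ := hcon ((a.val : ℝ) / q + η) j hj
      have hiq : ¬ (q : ℤ) ∣ i - j := by
        intro hdv
        have h1 := hj1 i hi hij hdv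
        obtain ⟨c, hc⟩ := hdv
        have h2 : ((a.val : ℝ) / q + η) * ((i : ℝ) - j) =
            η * ((i : ℝ) - j) + ((a.val * c : ℤ) : ℝ) := by
          have h3 : (i : ℝ) - j = q * c := by exact_mod_cast hc
          rw [h3]
          push_cast
          field_simp
          ring
        rw [h2, nd_add_int] at hlt
        linarith
      refine ⟨i, Finset.mem_filter.2 ⟨hi, hiq⟩, ?_⟩
      obtain ⟨m, hm⟩ := lt_iff_exists hlt
      refine ⟨a.val * (i - j) + round (q * η * ((i : ℝ) - j)) - q * m, ?_, ?_⟩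
      · push_cast
        rw [ZMod.natCast_zmod_val]
        simp
      · have h2 : (((a.val * (i - j) + round (q * η * ((i : ℝ) - j)) - q * m : ℤ)) : ℝ) +
            (q * η * ((i : ℝ) - j) - round (q * η * ((i : ℝ) - j))) =
            q * (((a.val : ℝ) / q + η) * ((i : ℝ) - j) - m) := by
          push_cast
          field_simp
          ring
        rw [h2, abs_mul, abs_of_pos hq0]
        have h3 := mul_lt_mul_of_pos_left hm hq0
        linarith
  -- `j` and a mate of `j` are not counted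
  obtain ⟨j', hj', hne, hdv⟩ := hmate j hj
  have h1 : (S.filter fun i => ¬ (q : ℤ) ∣ i - j) ⊆ (S.erase j).erase j' := by
    intro i hi
    obtain ⟨hiS, hiq⟩ := Finset.mem_filter.1 hi
    refine Finset.mem_erase.2 ⟨?_, Finset.mem_erase.2 ⟨?_, hiS⟩⟩
    · rintro rfl
      exact hiq hdv
    · rintro rfl
      exact hiq (by simp)
  have h2 := Finset.card_le_card h1
  rw [Finset.card_erase_of_mem (Finset.mem_erase.2 ⟨hne, hj'⟩), Finset.card_erase_of_mem hj] at h2
  have h3 : 2 ≤ q := hqp.out.two_le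
  have h4 : 0 < S.card := Finset.card_pos.2 ⟨j, hj⟩
  have h5 : 2 ≤ S.card := by
    have : ({j, j'} : Finset ℤ) ⊆ S := by
      intro x hx
      rcases Finset.mem_insert.1 hx with rfl | hx
      · exact hj
      · rw [Finset.mem_singleton.1 hx]
        exact hj'
    have h6 := Finset.card_le_card this
    rwa [Finset.card_pair hne.symm] at h6
  omega

/-- the theorem for integer speeds -/
theorem lonely_int (d : ℝ) (hd : 0 < d) (hdq : 3 * q * d ≤ 2) :
    ∀ N : ℕ, ∀ S : Finset ℤ, mu S ≤ N → S.Nonempty → S.card ≤ q → Lon S d := by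
  classical
  have hq0 : (0 : ℝ) < q := by exact_mod_cast hqp.out.pos
  intro N
  induction N with
  | zero =>
    intro S hS hne hcard
    obtain ⟨v, hv⟩ := hne
    refine ⟨0, v, hv, fun i hi hiv => ?_⟩
    exfalso
    have h1 : mu S = 0 := by omega
    have h2 := (Finset.sum_eq_zero_iff.1 h1) i hi
    have h3 := (Finset.sum_eq_zero_iff.1 h2) v hv
    omega
  | succ N ih =>
    intro S hS hne hcard
    by_cases h1 : ∀ i ∈ S, ∀ j ∈ S, i = j
    · obtain ⟨v, hv⟩ := hne
      exact ⟨0, v, hv, fun i hi hiv => absurd (h1 i hi v hv) hiv⟩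
    push Not at h1
    obtain ⟨x, hx, y, hy, hxy⟩ := h1
    by_cases hall : ∀ i ∈ S, (q : ℤ) ∣ i - x
    · -- all congruent
      have hinj : Set.InjOn (fun i : ℤ => (i - x) / q) (S : Set ℤ) := by
        intro i hi k hk hik
        have e1 := Int.ediv_mul_cancel (hall i hi)
        have e2 := Int.ediv_mul_cancel (hall k hk)
        simp only at hik
        rw [hik] at e1
        linarith
      set T : Finset ℤ := S.image fun i => (i - x) / q with hT
      have hTcard : T.card = S.card := Finset.card_image_of_injOn hinj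
      have hval : ∀ i ∈ S, ∀ k ∈ S, (i - k).natAbs = q * ((i - x) / q - (k - x) / q).natAbs := by
        intro i hi k hk
        have e1 := Int.ediv_mul_cancel (hall i hi)
        have e2 := Int.ediv_mul_cancel (hall k hk)
        have e3 : i - k = q * ((i - x) / q - (k - x) / q) := by
          have : i - k = (i - x) - (k - x) := by ring
          rw [this]
          nth_rewrite 1 [← e1]
          nth_rewrite 1 [← e2]
          ring
        nth_rewrite 1 [e3]
        rw [Int.natAbs_mul, Int.natAbs_natCast]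
      have hmuT : mu S = q * mu T := by
        unfold mu
        rw [hT, Finset.sum_image hinj, Finset.mul_sum]
        refine Finset.sum_congr rfl fun i hi => ?_
        rw [Finset.sum_image hinj, Finset.mul_sum]
        exact Finset.sum_congr rfl fun k hk => hval i hi k hk
      have hpos : 0 < mu S := by
        unfold mu
        refine lt_of_lt_of_le ?_ (Finset.single_le_sum (f := fun v => ∑ w ∈ S, (v - w).natAbs)
          (fun _ _ => Nat.zero_le _) hx)
        refine lt_of_lt_of_le ?_ (Finset.single_le_sum (f := fun w => (x - w).natAbs)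
          (fun _ _ => Nat.zero_le _) hy)
        show 0 < (x - y).natAbs
        omega
      have hlt : mu T ≤ N := by
        have h2 : 2 ≤ q := hqp.out.two_le
        have h3 : 0 < mu T := by
          rcases Nat.eq_zero_or_pos (mu T) with h | h
          · rw [h] at hmuT
            omega
          · exact h
        have h4 : 2 * mu T ≤ q * mu T := Nat.mul_le_mul_right _ h2
        omega
      obtain ⟨t, j, hj, hjt⟩ := ih T hlt (hne.image _) (by rw [hTcard]; exact hcard)
      obtain ⟨k, hk, rfl⟩ := Finset.mem_image.1 hj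
      refine ⟨t / q, k, hk, fun i hi hik => ?_⟩
      have h2 : (i - x) / (q : ℤ) ≠ (k - x) / q := fun e => hik (hinj hi hk e)
      have h3 := hjt ((i - x) / q) (Finset.mem_image_of_mem _ hi) h2
      have e1 : (((i - x) / (q : ℤ) : ℤ) : ℝ) * q = (i : ℝ) - x := by
        exact_mod_cast Int.ediv_mul_cancel (hall i hi)
      have e2 : (((k - x) / (q : ℤ) : ℤ) : ℝ) * q = (k : ℝ) - x := by
        exact_mod_cast Int.ediv_mul_cancel (hall k hk)
      have h4 : t / q * ((i : ℝ) - k) =
          t * ((((i - x) / (q : ℤ) : ℤ) : ℝ) - (((k - x) / (q : ℤ) : ℤ) : ℝ)) := by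
        have : (i : ℝ) - k = q * ((((i - x) / (q : ℤ) : ℤ) : ℝ) - (((k - x) / (q : ℤ) : ℤ) : ℝ)) := by
          linarith
        rw [this]
        field_simp
      rw [h4]
      exact h3
    by_cases hmate : ∀ i ∈ S, ∃ i' ∈ S, i' ≠ i ∧ (q : ℤ) ∣ i' - i
    · -- induction for one class
      push Not at hall
      obtain ⟨u, hu, hux⟩ := hall
      refine key S d hd hdq hcard hmate x hx (ih _ ?_ ?_ ?_)
      · have h2 : mu (S.filter fun i => (q : ℤ) ∣ i - x) < mu S := by
          refine mu_lt (Finset.filter_subset _ _) ⟨x, Finset.mem_filter.2 ⟨hx, by simp⟩⟩ hu ?_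
          intro h
          exact hux (Finset.mem_filter.1 h).2
        omega
      · exact ⟨x, Finset.mem_filter.2 ⟨hx, by simp⟩⟩
      · exact le_trans (Finset.card_le_card (Finset.filter_subset _ _)) hcard
    · -- a singleton class
      push Not at hmate
      obtain ⟨j, hj, hjj⟩ := hmate
      refine ⟨1 / q, j, hj, fun i hi hij => ?_⟩
      have h2 := nd_frac hqp.out.pos (i - j) (hjj i hi hij)
      have h3 : (1 / (q : ℝ)) * ((i : ℝ) - j) = ((i - j : ℤ) : ℝ) / q := by
        push_cast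
        ring
      rw [h3]
      refine le_trans ?_ h2
      rw [le_div_iff₀ hq0]
      nlinarith

end step

/-- simultaneous approximation -/
theorem approx {n : ℕ} (v : Fin n → ℝ) (ε : ℝ) (hε : 0 < ε) :
    ∃ N : ℕ, 0 < N ∧ ∃ w : Fin n → ℤ, ∀ i, |N * v i - w i| ≤ ε := by
  obtain ⟨M, hM⟩ := exists_nat_gt (1 / ε)
  have hM0 : (0 : ℝ) < M := lt_trans (by positivity) hM
  have hM0' : 0 < M := by exact_mod_cast hM0
  let F : ℕ → (Fin n → Fin M) := fun k i =>
    ⟨⌊Int.fract (k * v i) * M⌋₊, by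
      have h1 : Int.fract (k * v i) * M < M := by
        have := Int.fract_lt_one ((k : ℝ) * v i)
        nlinarith
      exact (Nat.floor_lt (mul_nonneg (Int.fract_nonneg _) hM0.le)).2 h1⟩
  obtain ⟨k1, k2, hne, hF⟩ := Finite.exists_ne_map_eq_of_infinite F
  have main : ∀ k1 k2 : ℕ, k1 < k2 → F k1 = F k2 →
      ∃ N : ℕ, 0 < N ∧ ∃ w : Fin n → ℤ, ∀ i, |N * v i - w i| ≤ ε := by
    intro k1 k2 hlt hF
    refine ⟨k2 - k1, by omega, fun i => ⌊(k2 : ℝ) * v i⌋ - ⌊(k1 : ℝ) * v i⌋, fun i => ?_⟩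
    have h1 : ⌊Int.fract (k1 * v i) * M⌋₊ = ⌊Int.fract (k2 * v i) * M⌋₊ := by
      have := congrArg (fun G => (G i : ℕ)) hF
      exact this
    have a1 := Nat.floor_le (mul_nonneg (Int.fract_nonneg ((k1 : ℝ) * v i)) hM0.le)
    have a2 := Nat.lt_floor_add_one (Int.fract ((k1 : ℝ) * v i) * M)
    have b1 := Nat.floor_le (mul_nonneg (Int.fract_nonneg ((k2 : ℝ) * v i)) hM0.le)
    have b2 := Nat.lt_floor_add_one (Int.fract ((k2 : ℝ) * v i) * M)
    rw [h1] at a1 a2
    have c1 : |(Int.fract ((k2 : ℝ) * v i) - Int.fract ((k1 : ℝ) * v i)) * M| ≤ 1 := by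
      rw [abs_le]
      constructor <;> nlinarith
    have c2 : ((k2 - k1 : ℕ) : ℝ) * v i - ((⌊(k2 : ℝ) * v i⌋ - ⌊(k1 : ℝ) * v i⌋ : ℤ) : ℝ) =
        Int.fract ((k2 : ℝ) * v i) - Int.fract ((k1 : ℝ) * v i) := by
      rw [Nat.cast_sub hlt.le]
      unfold Int.fract
      push_cast
      ring
    rw [c2]
    rw [abs_mul, abs_of_pos hM0] at c1
    have c3 : 1 < M * ε := by
      rw [div_lt_iff₀ hε] at hM
      linarith
    by_contra hcon
    push Not at hcon
    have c4 := mul_lt_mul_of_pos_right hcon hM0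
    linarith
  rcases lt_or_gt_of_ne hne with h | h
  · exact main k1 k2 h hF
  · exact main k2 k1 h hF.symm

/-- integer speeds, indexed by `Fin n` -/
theorem lonely_int' (n q : ℕ) (hq : q.Prime) (hn : 1 ≤ n) (hnq : n ≤ q) (w : Fin n → ℤ)
    (hw : Function.Injective w) (d : ℝ) (hdq : 3 * q * d ≤ 2) :
    ∃ t : ℝ, 0 ≤ t ∧ t ≤ 1 ∧ ∃ j : Fin n, ∀ i : Fin n, i ≠ j →
      d ≤ nd (t * ((w i : ℝ) - w j)) := by
  have : Fact q.Prime := ⟨hq⟩
  by_cases hd : 0 < d
  · have hne : (Finset.univ.image w).Nonempty := ⟨w ⟨0, hn⟩, Finset.mem_image_of_mem _ (Finset.mem_univ _)⟩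
    have hcard : (Finset.univ.image w).card ≤ q := by
      rw [Finset.card_image_of_injective _ hw, Finset.card_univ, Fintype.card_fin]
      exact hnq
    obtain ⟨t, j, hj, hjt⟩ := lonely_int (q := q) d hd hdq _ (Finset.univ.image w) le_rfl hne hcard
    obtain ⟨k, -, rfl⟩ := Finset.mem_image.1 hj
    refine ⟨Int.fract t, Int.fract_nonneg t, (Int.fract_lt_one t).le, k, fun i hik => ?_⟩
    have h1 := hjt (w i) (Finset.mem_image_of_mem _ (Finset.mem_univ _)) (fun e => hik (hw e))
    have h2 : t * ((w i : ℝ) - w k) = Int.fract t * ((w i : ℝ) - w k) +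
        ((⌊t⌋ * (w i - w k) : ℤ) : ℝ) := by
      unfold Int.fract
      push_cast
      ring
    rw [h2, nd_add_int] at h1
    exact h1
  · push Not at hd
    refine ⟨0, le_rfl, zero_le_one, ⟨0, hn⟩, fun i _ => le_trans hd (abs_nonneg _)⟩

/-- real speeds -/
theorem lonely_real (n q : ℕ) (hq : q.Prime) (hn : 1 ≤ n) (hnq : n ≤ q) (v : Fin n → ℝ)
    (hv : Function.Injective v) (d : ℝ) (hdq : 3 * q * d < 2) :
    ∃ t : ℝ, ∃ j : Fin n, ∀ i : Fin n, i ≠ j → d ≤ nd (t * (v i - v j)) := by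
  have hq0 : (0 : ℝ) < q := by exact_mod_cast hq.pos
  -- the smallest difference
  have hgap : ∃ δ : ℝ, 0 < δ ∧ ∀ i j : Fin n, i ≠ j → δ ≤ |v i - v j| := by
    by_cases hP : ((Finset.univ : Finset (Fin n × Fin n)).filter fun p => p.1 ≠ p.2).Nonempty
    · obtain ⟨p, hp, hmin⟩ := Finset.exists_min_image _ (fun p : Fin n × Fin n => |v p.1 - v p.2|) hP
      refine ⟨|v p.1 - v p.2|, ?_, fun i j hij => hmin (i, j) (Finset.mem_filter.2 ⟨Finset.mem_univ _, hij⟩)⟩
      rw [abs_pos, sub_ne_zero]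
      exact fun e => (Finset.mem_filter.1 hp).2 (hv e)
    · rw [Finset.not_nonempty_iff_eq_empty] at hP
      refine ⟨1, one_pos, fun i j hij => ?_⟩
      have : (i, j) ∈ ((Finset.univ : Finset (Fin n × Fin n)).filter fun p => p.1 ≠ p.2) :=
        Finset.mem_filter.2 ⟨Finset.mem_univ _, hij⟩
      rw [hP] at this
      exact absurd this (Finset.notMem_empty _)
  obtain ⟨δ, hδ, hδ'⟩ := hgap
  set ε : ℝ := min (δ / 4) ((2 - 3 * q * d) / (6 * q)) with hε
  have hε0 : 0 < ε := lt_min (by positivity) (by apply div_pos <;> linarith)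
  have hε1 : ε ≤ δ / 4 := min_le_left _ _
  have hε2 : 3 * q * (d + 2 * ε) ≤ 2 := by
    have h1 : ε ≤ (2 - 3 * q * d) / (6 * q) := min_le_right _ _
    rw [le_div_iff₀ (by positivity)] at h1
    linarith
  obtain ⟨N, hN, w, hw⟩ := approx v ε hε0
  have hN1 : (1 : ℝ) ≤ N := by exact_mod_cast hN
  have hwinj : Function.Injective w := by
    intro i j hij
    by_contra hne
    have h1 := hδ' i j hne
    have h2 : |(N : ℝ) * v i - N * v j| ≤ 2 * ε := by
      have h3 : (N : ℝ) * v i - N * v j = (N * v i - w i) - (N * v j - w j) := by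
        rw [hij]
        ring
      rw [h3]
      have := abs_sub (N * v i - w i) (N * v j - w j)
      have h4 := hw i
      have h5 := hw j
      linarith
    rw [← mul_sub, abs_mul, abs_of_pos (by linarith : (0 : ℝ) < N)] at h2
    nlinarith [abs_nonneg (v i - v j)]
  obtain ⟨s, hs0, hs1, j, hj⟩ := lonely_int' n q hq hn hnq w hwinj (d + 2 * ε) hε2
  refine ⟨s * N, j, fun i hij => ?_⟩
  have h1 := hj i hij
  have h2 := nd_lip (s * ((w i : ℝ) - w j)) (s * N * (v i - v j))
  have h3 : s * ((w i : ℝ) - w j) - s * N * (v i - v j) =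
      s * ((N * v j - w j) - (N * v i - w i)) := by ring
  rw [h3, abs_mul, abs_of_nonneg hs0] at h2
  have h4 : |(N * v j - w j) - (N * v i - w i)| ≤ 2 * ε := by
    have := abs_sub (N * v j - w j) (N * v i - w i)
    have h5 := hw i
    have h6 := hw j
    linarith
  have h5 : s * |(N * v j - w j) - (N * v i - w i)| ≤ 1 * (2 * ε) :=
    mul_le_mul hs1 h4 (abs_nonneg _) zero_le_one
  linarith

end Pool.Agent.WLR3
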